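import Pool.Agent.H13.TFQ.H16.FU.Asm1
import Pool.Agent.H13.TFQ.H71.FQ.Asm

/-!
# Project KL: the product with the class of `t`

`tp A n : KQ A n → KQ (A[t, t⁻¹]) (n + 1)` is the product with the class of the unit `t`: the class of `z ∈ H_{n+1}(GL_N(A))`
goes to the class of the product (`HG.cr`) of its image in the homology of `GL_N(A[t, t⁻¹])` with the scalar matrix `t`.

PROOFS.  `tp`: `KQ.lift`; the block relation is `cls_cr_blk` of `FU/Asm1.lean` (private there, copy it): for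
`w ∈ H(GL_N × GL_M)` `HG.cr` for `blk (mapGL pr₁ , mapGL pr₂)` and the element `blk (t, t)` (`HG.map_cr`, `KQ.cls_blk`,
`HG.cr_comp`).  `map_tp`: `HG.map_cr`.  `tp_pos`, `tp_neg` are not needed.
`mono1`: the class of the image of `H_{n+1}(G)` under `G → GL_1(R[G])`.
-/

set_option autoImplicit false

open Matrix
open scoped LaurentPolynomial

universe u v w

namespace Pool.Agent.H39.KL

open Pool.Agent.H71.FQ Pool.Agent.H16.FU

section

variable (A : Type u) [Ring A]

/-- the scalar matrix `t` -/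
noncomputable def tS (N : ℕ) : GLm N A[T;T⁻¹] :=
  ⟨scalar (Fin N) (LaurentPolynomial.T 1), scalar (Fin N) (LaurentPolynomial.T (-1)),
    by rw [← map_mul, ← LaurentPolynomial.T_add, add_neg_cancel, LaurentPolynomial.T_zero, map_one],
    by rw [← map_mul, ← LaurentPolynomial.T_add, neg_add_cancel, LaurentPolynomial.T_zero, map_one]⟩

/-- the inclusion of the constants -/
noncomputable def cS (N : ℕ) : GLm N A →* GLm N A[T;T⁻¹] :=
  mapGL (LaurentPolynomial.C : A →+* A[T;T⁻¹]) N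

theorem tS_comm (N : ℕ) (x : GLm N A) : cS A N x * tS A N = tS A N * cS A N x := by
  apply Units.ext
  change x.val.map (LaurentPolynomial.C : A →+* A[T;T⁻¹]) *
      (diagonal fun _ : Fin N => (LaurentPolynomial.T 1 : A[T;T⁻¹])) =
    (diagonal fun _ : Fin N => (LaurentPolynomial.T 1 : A[T;T⁻¹])) *
      x.val.map (LaurentPolynomial.C : A →+* A[T;T⁻¹])
  refine Matrix.ext fun i j => ?_
  rw [Matrix.mul_diagonal, Matrix.diagonal_mul, Matrix.map_apply, LaurentPolynomial.T_mul]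

private theorem cls_cr_blk {B : Type u} [Ring B] {Γ : Type w} [Group Γ] {n : ℕ} {N M : ℕ}
    (f : Γ →* GLm N B) (g : Γ →* GLm M B) (u : GLm N B)
    (v : GLm M B) (hu : ∀ γ, f γ * u = u * f γ) (hv : ∀ γ, g γ * v = v * g γ)
    (F : Γ →* GLm (N + M) B) (w : GLm (N + M) B) (hFw : ∀ γ, F γ * w = w * F γ)
    (hF : (blk N M B).comp (f.prod g) = F) (hw : blk N M B (u, v) = w) (z : HG Γ n) :
    KQ.cls B (n + 1) (N + M) (HG.cr F w hFw z) =
      KQ.cls B (n + 1) N (HG.cr f u hu z) + KQ.cls B (n + 1) M (HG.cr g v hv z) := by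
  have h0 : ∀ γ, (f.prod g) γ * (u, v) = (u, v) * (f.prod g) γ := fun γ =>
    Prod.ext (hu γ) (hv γ)
  subst hF
  subst hw
  rw [← HG.map_cr (f.prod g) (blk N M B) (u, v) h0 hFw z, KQ.cls_blk]
  congr 1
  · exact congrArg _ (HG.map_cr (f.prod g) (MonoidHom.fst (GLm N B) (GLm M B)) (u, v) h0 hu z)
  · exact congrArg _ (HG.map_cr (f.prod g) (MonoidHom.snd (GLm N B) (GLm M B)) (u, v) h0 hv z)

private theorem blk_tS (N M : ℕ) : blk N M A[T;T⁻¹] (tS A N, tS A M) = tS A (N + M) := by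
  refine Units.ext ?_
  change (fromBlocks (diagonal fun _ : Fin N => (LaurentPolynomial.T 1 : A[T;T⁻¹])) 0 0
    (diagonal fun _ : Fin M => (LaurentPolynomial.T 1 : A[T;T⁻¹]))).submatrix
      finSumFinEquiv.symm finSumFinEquiv.symm =
      diagonal fun _ : Fin (N + M) => (LaurentPolynomial.T 1 : A[T;T⁻¹])
  rw [fromBlocks_diagonal, submatrix_diagonal_equiv]
  congr 1
  funext i
  change Sum.elim (fun _ : Fin N => (LaurentPolynomial.T 1 : A[T;T⁻¹]))
    (fun _ : Fin M => (LaurentPolynomial.T 1 : A[T;T⁻¹])) (finSumFinEquiv.symm i) = _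
  rcases finSumFinEquiv.symm i with j | j <;> rfl

private theorem tp_aux (n N M : ℕ) (w : HG (GLm N A × GLm M A) n) :
    KQ.cls A[T;T⁻¹] (n + 1) (N + M) (HG.cr (cS A (N + M)) (tS A (N + M)) (tS_comm A (N + M))
        (HG.map n (blk N M A) w)) =
      KQ.cls A[T;T⁻¹] (n + 1) N (HG.cr (cS A N) (tS A N) (tS_comm A N)
          (HG.map n (MonoidHom.fst (GLm N A) (GLm M A)) w)) +
        KQ.cls A[T;T⁻¹] (n + 1) M (HG.cr (cS A M) (tS A M) (tS_comm A M)
          (HG.map n (MonoidHom.snd (GLm N A) (GLm M A)) w)) := by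
  rw [← HG.cr_comp (cS A (N + M)) (blk N M A) (tS A (N + M)) (tS_comm A (N + M))
      (fun γ => tS_comm A (N + M) _) w,
    ← HG.cr_comp (cS A N) (MonoidHom.fst (GLm N A) (GLm M A)) (tS A N) (tS_comm A N)
      (fun γ => tS_comm A N _) w,
    ← HG.cr_comp (cS A M) (MonoidHom.snd (GLm N A) (GLm M A)) (tS A M) (tS_comm A M)
      (fun γ => tS_comm A M _) w]
  exact cls_cr_blk _ _ _ _ _ _ _ _ _
    (mapGL_comp_blk (LaurentPolynomial.C : A →+* A[T;T⁻¹]) N M).symm (blk_tS A N M) w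

/-- **The product with the class of `t`.** -/
noncomputable def tp (n : ℕ) : KQ A n →+ KQ A[T;T⁻¹] (n + 1) :=
  KQ.lift (fun N => (KQ.cls A[T;T⁻¹] (n + 1) N).comp (HG.cr (cS A N) (tS A N) (tS_comm A N)))
    (tp_aux A n)

variable {A}

theorem tp_cls (n N : ℕ) (z : HG (GLm N A) n) : tp A n (KQ.cls A n N z) =
    KQ.cls A[T;T⁻¹] (n + 1) N (HG.cr (cS A N) (tS A N) (tS_comm A N) z) :=
  KQ.lift_cls _ _ N z

end

section

/-- the class of the image of `H_{n+1}(G)` in the homology of `GL_1(R[G])` -/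
noncomputable def mono1 (R : Type u) [Ring R] (G : Type v) [Group G] (n : ℕ) :
    HG G n →+ KQ (MonoidAlgebra R G) n :=
  (KQ.cls (MonoidAlgebra R G) n 1).comp (HG.map n (scal 1 (grpHom R G)))

end

end Pool.Agent.H39.KL
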