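import Pool.Agent.H13.TFQ.H39.KL.KillM
import Pool.Agent.H13.TFQ.M109
import Pool.Agent.H13.TFQ.M111
import Pool.Agent.H13.TFQ.M112
import Pool.Agent.H13.TFQ.M77

/-!
# Project KL: rational injectivity of the assembly map over `ℤ` on the parts `H_n(G; ℤ)`, `K₁` and `K₋₁`

Let `G` be a group in which for every prime `p` the elements of `p`-power order have bounded order and such that
`PSepA p` holds for `H_{k+1}(Z_G(C))` and `H_{k+3}(Z_G(C))`, `C` finite cyclic, `p ∣ card C`.  Then the assembly map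
`asmAll G k` in the degree `k + 2` is injective after tensoring with `ℚ`.
-/

set_option autoImplicit false

open Matrix
open scoped LaurentPolynomial

universe u v w

namespace Pool.Agent.H39.KL

open Pool.Agent.H71.FQ Pool.Agent.H16.KN Pool.Agent.H16.FU
open Pool.Agent.H95.KM (posHom negHom lau)
open Pool.Agent.H95.WH (K1 K1.unit FamSub FinSub)

section

variable {G : Type u} [Group G]

/-- The condition on the centralizers in the degree `k + 1`. -/
def SepC (G : Type u) [Group G] (k : ℕ) : Prop :=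
  ∀ p : ℕ, p.Prime → ∀ C : Subgroup G, Finite C → IsCyclic C → p ∣ Nat.card C →
    PSepA p (HG (Subgroup.centralizer (C : Set G)) k)

/-- The condition on the orders of the elements. -/
def BddT (G : Type u) [Group G] : Prop :=
  ∀ p : ℕ, p.Prime → ∃ r : ℕ, ∀ g : G, (∃ j : ℕ, g ^ p ^ j = 1) → g ^ p ^ r = 1

/-- Elements of the kernel of the assembly map on the `K₋₁`-part. -/
theorem km1_tor (k : ℕ) (hexp : k = 0 ∨ BddT G) (hG : SepC G k) (w : HnKm1 ℤ G k)
    (h : asmKm1 ℤ k G w = 0) : ∃ m : ℤ, m ≠ 0 ∧ m • w = 0 := by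
  refine asm_torsionN G k (hasRel_of k hexp ?_) w h
  intro p c hp hc hpc
  have h1 := hG p hp (Subgroup.zpowers c) (finite_zpowers.2 hc) inferInstance
    (by rw [Nat.card_zpowers]; exact hpc)
  have h2 : Subgroup.centralizer ((Subgroup.zpowers c : Subgroup G) : Set G) =
      Subgroup.centralizer ({c} : Set G) := by
    rw [Subgroup.zpowers_eq_closure, Subgroup.centralizer_closure]
  rw [h2] at h1
  exact h1

/-- The map on `LKQ` of the product with `t` of the classes of `H_{n+1}(G)`. -/
noncomputable def yPart (R : Type) [Ring R] (G : Type u) [Group G] (n : ℕ) :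
    HG G n →+ LKQ (MonoidAlgebra R G) (n + 1) :=
  (LKQ.mk.comp (tp (MonoidAlgebra R G) n)).comp (mono1 R G n)

theorem map_yPart {R R' : Type} [CommRing R] [CommRing R'] (f : R →+* R') (n : ℕ) (y : HG G n) :
    LKQ.map (MonoidAlgebra.mapRingHom G f) (yPart R G n y) = yPart R' G n y := by
  change LKQ.map (MonoidAlgebra.mapRingHom G f)
    (LKQ.mk (tp (MonoidAlgebra R G) n (mono1 R G n y))) =
      LKQ.mk (tp (MonoidAlgebra R' G) n (mono1 R' G n y))
  rw [LKQ.map_mk, map_tp, map_mono1]

/-- **The parts `H_n(G; ℤ)` and `K₋₁`.** -/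
theorem joint_tor (n : ℕ) (hexp : BddT G) (hG : SepC G (n + 1)) (y : HG G n)
    (W : HnKm1 ℤ G (n + 1)) (h : yPart ℤ G n y + asmKm1 ℤ (n + 1) G W = 0) :
    ∃ m : ℤ, m ≠ 0 ∧ m • y = 0 ∧ m • W = 0 := by
  have hp : Fact (Nat.Prime 2) := ⟨Nat.prime_two⟩
  obtain ⟨B, _, _, _, -, -, M, hM, hMW⟩ := kill_all 2 G (n + 1) W
  have h1 := congrArg (fun x => M • LKQ.map (MonoidAlgebra.mapRingHom G (Int.castRingHom B)) x) h
  simp only [map_add, map_zero, smul_zero, smul_add] at h1
  rw [hMW, add_zero, map_yPart] at h1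
  have h2 := congrArg (LKQ.map (n := n + 1)
    (MonoidAlgebra.mapRingHom G (algebraMap B (FractionRing B)))) h1
  rw [map_zsmul, map_yPart, map_zero] at h2
  have hch : CharZero (FractionRing B) := charZero_of_injective_algebraMap
    (IsFractionRing.injective B (FractionRing B))
  obtain ⟨m, hm, hmy⟩ := y_tor (L := FractionRing B) y M hM h2
  have h3 : asmKm1 ℤ (n + 1) G (m • W) = 0 := by
    have h4 := congrArg (fun x => m • x) h
    simp only [smul_add, smul_zero] at h4
    rw [← map_zsmul, hmy, map_zero, zero_add] at h4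
    rw [map_zsmul]
    exact h4
  obtain ⟨m', hm', h5⟩ := km1_tor (n + 1) (Or.inr hexp) hG (m • W) h3
  refine ⟨m' * m, mul_ne_zero hm' hm, ?_, ?_⟩
  · rw [mul_smul, hmy, smul_zero]
  · rw [mul_smul, h5]

end

end Pool.Agent.H39.KL
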