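import Pool.Agent.H13.TFQ.H39.KL.One_1
import Pool.Agent.H13.TFQ.M77
import Pool.Agent.H13.TFQ.M91

/-!
# Project KL: the relation of the logarithms over `ℤ`, degree one

PROOF of `relC1`: as `relC` with `relB1` (`KL/One.lean`) in place of `relB`.  `B`, `M'` from `Kill`; apply
`LKQ.map (MonoidAlgebra.mapRingHom G (Int.castRingHom B))` to `hrel` and multiply by `M'`; `asmOne` applied to the triple is the sum
of the three parts (`AddMonoidHom.coprod_apply`), `assembly10_cl`, `map_kq1`, `map_mono1`, `map_tp`, `K1.map_unit`,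
`K1.map_map` (the two ring maps commute).  `relB1` gives `K` and the divisibility in `B` of
`K * ∑ i, ∑ d, if IsConj c d then e i * coeff_d (u ^ p ^ l - 1) else 0`, the image of an integer `s l`; `p ^ (2 l) ∣ K * s l` in
`B` implies the same in `ℤ` up to numbers prime to `p` (as in `relC`), here simply `p ^ (2 l) ∣ K * s l` in `ℤ`: write
`K * s l = p ^ a * s'`, `p ∤ s'`, `s'` is a unit of `B`, so `p ^ (2 l) ∣ p ^ a` in `B`, `a ≥ 2 l` as `p` is not a unit.
-/

set_option autoImplicit false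

open Matrix
open scoped LaurentPolynomial

universe u v w

namespace Pool.Agent.H39.KL

open Pool.Agent.H71.FQ Pool.Agent.H16.KN Pool.Agent.H16.FU
open Pool.Agent.H71.FU0 (H0K1 assembly10 assembly10_cl kq1 map_kq1 cl)
open Pool.Agent.H95.WH (K1 K1.unit K1.map FamSub FinSub)

section Aux

/-- divisibility by powers of `p` in `B` and in `ℤ` -/
private theorem dvd_int1 {p : ℕ} [Fact p.Prime] {B : Type*} [CommRing B] [IsDomain B] [CharZero B]
     (hsep : ∀ b : B, (∀ a : ℕ, (p : B) ^ a ∣ b) → b = 0)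
    (hun : ∀ q : ℕ, ¬ p ∣ q → IsUnit (q : B)) (j : ℕ) (n : ℤ) (h : (p : B) ^ j ∣ (n : B)) :
    (p : ℤ) ^ j ∣ n := by
  have hp : p.Prime := Fact.out
  have hpu : ¬ IsUnit (p : B) := by
    intro hu
    have h1 : (1 : B) = 0 := hsep 1 fun a => (hu.pow a).dvd
    exact one_ne_zero h1
  by_cases hn : n = 0
  · rw [hn]
    exact dvd_zero _
  obtain ⟨v, m, hm, e⟩ := Nat.exists_eq_pow_mul_and_not_dvd (Int.natAbs_ne_zero.2 hn) p hp.ne_one
  by_contra hj
  have hvj : v < j := by
    by_contra hvj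
    apply hj
    rw [← Int.natCast_pow, Int.natCast_dvd, e]
    exact Dvd.dvd.mul_right (pow_dvd_pow p (not_lt.1 hvj)) m
  have h2 : (p : B) ^ j ∣ ((n.natAbs : ℕ) : B) := by
    rcases Int.natAbs_eq n with h3 | h3
    · have h4 : (n : B) = ((n.natAbs : ℕ) : B) := by
        conv_lhs => rw [h3]
        exact Int.cast_natCast _
      rw [← h4]
      exact h
    · have h4 : (n : B) = -((n.natAbs : ℕ) : B) := by
        conv_lhs => rw [h3]
        rw [Int.cast_neg, Int.cast_natCast]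
      rw [h4, dvd_neg] at h
      exact h
  rw [e, Nat.cast_mul, Nat.cast_pow] at h2
  obtain ⟨b, hb⟩ := h2
  have hp0 : (p : B) ≠ 0 := Nat.cast_ne_zero.2 hp.ne_zero
  obtain ⟨d, rfl⟩ := Nat.exists_eq_add_of_lt hvj
  have h5 : (m : B) = (p : B) ^ (d + 1) * b := by
    apply mul_left_cancel₀ (pow_ne_zero v hp0)
    rw [hb, ← mul_assoc, ← pow_add, add_assoc]
  apply hpu
  refine isUnit_of_dvd_unit ?_ (hun m hm)
  rw [h5, pow_succ']
  exact ⟨(p : B) ^ d * b, by ring⟩

end Aux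

section

variable {G : Type u} [Group G]

open Classical in
/-- **The relation of the logarithms over `ℤ` in degree one.** -/
theorem relC1 {p : ℕ} [Fact p.Prime] (r : ℕ)
    (hG : ∀ g : G, (∃ j : ℕ, g ^ p ^ j = 1) → g ^ p ^ r = 1) {c : G} (hc : IsOfFinOrder c)
    (hpc : p ∣ orderOf c) {ι : Type} [Fintype ι] (C : ι → Subgroup G) [∀ i, Fintype (C i)]
    (hC : ∀ i, ∀ a b : C i, a * b = b * a) (u : ∀ i, (MonoidAlgebra ℤ (C i))ˣ)
    (hu : ∀ i, ∀ d : C i, (p : ℤ) ^ 2 ∣ ((u i : MonoidAlgebra ℤ (C i)) - 1).coeff d)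
    (e : ι → ℤ) (y : HG G 0) (W : HnKm1 ℤ G 1) (hW : Kill p G 1 W) (M : ℤ) (hM : M ≠ 0)
    (hrel : M • asmOne G (y, ∑ i, e i • cl (⟨C i, Finite.of_fintype (C i)⟩ : FamSub G FinSub)
      (K1.unit (u i)), W) = 0) :
    ∃ K : ℕ, ∀ l : ℕ, ∃ t : ℚ, ¬ p ∣ t.den ∧
      (p : ℚ) ^ K * ∑ i, ∑ d : C i, (if IsConj c (d : G) then
        (e i : ℚ) * ((((u i : MonoidAlgebra ℤ (C i)) ^ p ^ l - 1).coeff d : ℤ) : ℚ) else 0) =
      (p : ℚ) ^ (2 * l) * t := by
  obtain ⟨B, iB, iD, iC, hsep, hun, M', hM', hW'⟩ := hW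
  have hp : p.Prime := Fact.out
  -- the relation over B
  have hrel' : (M * M') • LKQ.mk (tp (MonoidAlgebra B G) 0 (mono1 B G 0 y +
      ∑ i, e i • kq1 (K1.map (MonoidAlgebra.mapDomainRingHom B (C i).subtype)
        (K1.unit (Units.map (MonoidAlgebra.mapRingHom (C i)
          (Int.castRingHom B)).toMonoidHom (u i)))))) = 0 := by
    have h1 := congrArg (fun x => M' • LKQ.map (MonoidAlgebra.mapRingHom G (Int.castRingHom B)) x)
      hrel
    simp only [map_zero, smul_zero, map_zsmul] at h1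
    have h2 : LKQ.map (MonoidAlgebra.mapRingHom G (Int.castRingHom B))
        (asmOne G (y, ∑ i, e i • cl (⟨C i, Finite.of_fintype (C i)⟩ : FamSub G FinSub)
          (K1.unit (u i)), W)) =
        LKQ.mk (tp (MonoidAlgebra B G) 0 (mono1 B G 0 y +
          ∑ i, e i • kq1 (K1.map (MonoidAlgebra.mapDomainRingHom B (C i).subtype)
            (K1.unit (Units.map (MonoidAlgebra.mapRingHom (C i)
              (Int.castRingHom B)).toMonoidHom (u i)))))) +
        LKQ.map (MonoidAlgebra.mapRingHom G (Int.castRingHom B)) (asmKm1 ℤ 1 G W) := by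
      have h3 : asmOne G (y, ∑ i, e i • cl (⟨C i, Finite.of_fintype (C i)⟩ : FamSub G FinSub)
          (K1.unit (u i)), W) =
          LKQ.mk (tp (MonoidAlgebra ℤ G) 0 (mono1 ℤ G 0 y)) +
          (LKQ.mk (tp (MonoidAlgebra ℤ G) 0 (assembly10 ℤ G
            (∑ i, e i • cl (⟨C i, Finite.of_fintype (C i)⟩ : FamSub G FinSub)
              (K1.unit (u i))))) + asmKm1 ℤ 1 G W) := rfl
      have h4 : KQ.map (MonoidAlgebra.mapRingHom G (Int.castRingHom B)) (assembly10 ℤ G
            (∑ i, e i • cl (⟨C i, Finite.of_fintype (C i)⟩ : FamSub G FinSub)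
              (K1.unit (u i)))) =
          ∑ i, e i • kq1 (K1.map (MonoidAlgebra.mapDomainRingHom B (C i).subtype)
            (K1.unit (Units.map (MonoidAlgebra.mapRingHom (C i)
              (Int.castRingHom B)).toMonoidHom (u i)))) := by
        rw [map_sum, map_sum]
        refine Finset.sum_congr rfl fun i _ => ?_
        rw [map_zsmul, map_zsmul, assembly10_cl, map_kq1, Pool.Agent.H95.WH.K1.map_map,
          MonoidAlgebra.mapRingHom_comp_mapDomainRingHom, ← Pool.Agent.H95.WH.K1.map_map,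
          Pool.Agent.H95.WH.K1.map_unit]
      rw [h3, map_add, map_add, ← add_assoc, LKQ.map_mk, LKQ.map_mk, map_tp, map_tp, map_mono1, h4,
        ← map_add, ← map_add]
    rw [h2, smul_add, smul_add, smul_comm M' M (LKQ.map _ _), hW', smul_zero, add_zero,
      ← mul_smul, mul_comm M' M] at h1
    exact h1
  have hu' : ∀ i, ∃ a : MonoidAlgebra B (C i),
      ((Units.map (MonoidAlgebra.mapRingHom (C i) (Int.castRingHom B)).toMonoidHom (u i) :
        (MonoidAlgebra B (C i))ˣ) : MonoidAlgebra B (C i)) = 1 + ((p : B) ^ 2) • a := by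
    intro i
    choose a ha using hu i
    refine ⟨MonoidAlgebra.ofCoeff (Finsupp.equivFunOnFinite.symm fun d => ((a d : ℤ) : B)), ?_⟩
    have h1 : (u i : MonoidAlgebra ℤ (C i)) = 1 + ((u i : MonoidAlgebra ℤ (C i)) - 1) := by
      rw [add_sub_cancel]
    show MonoidAlgebra.mapRingHom (C i) (Int.castRingHom B) (u i : MonoidAlgebra ℤ (C i)) = _
    rw [h1, map_add, map_one]
    congr 1
    apply MonoidAlgebra.ext
    refine Finsupp.ext fun d => ?_
    rw [MonoidAlgebra.coeff_mapRingHom, ha d, MonoidAlgebra.coeff_smul_apply, smul_eq_mul]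
    show ((((p : ℤ) ^ 2 * a d : ℤ)) : B) = (p : B) ^ 2 * ((a d : ℤ) : B)
    push_cast
    rfl
  obtain ⟨K, hK, hdvd⟩ := relB1 r hG hc hpc C hC
    (fun i => Units.map (MonoidAlgebra.mapRingHom (C i) (Int.castRingHom B)).toMonoidHom (u i))
    hu' e y (M * M') (mul_ne_zero hM hM') hrel'
  obtain ⟨a, K0, hK0, eK⟩ := Nat.exists_eq_pow_mul_and_not_dvd hK p hp.ne_one
  refine ⟨a, fun l => ?_⟩
  set s : ℤ := ∑ i, ∑ d : C i, (if IsConj c (d : G) then
        e i * (((u i : MonoidAlgebra ℤ (C i)) ^ p ^ l - 1).coeff d) else 0) with hs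
  have hsQ : (∑ i, ∑ d : C i, (if IsConj c (d : G) then
        (e i : ℚ) * ((((u i : MonoidAlgebra ℤ (C i)) ^ p ^ l - 1).coeff d : ℤ) : ℚ) else 0)) =
      ((s : ℤ) : ℚ) := by
    rw [hs]
    push_cast
    refine Finset.sum_congr rfl fun i _ => Finset.sum_congr rfl fun d _ => ?_
    split_ifs <;> simp
  have h1 := hdvd l
  have hsB : (∑ i, ∑ d : C i, (if IsConj c (d : G) then
        (e i : B) * ((((Units.map (MonoidAlgebra.mapRingHom (C i)
          (Int.castRingHom B)).toMonoidHom (u i) :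
          (MonoidAlgebra B (C i))ˣ) : MonoidAlgebra B (C i)) ^ p ^ l - 1).coeff d) else 0)) =
      ((s : ℤ) : B) := by
    rw [hs, Int.cast_sum]
    refine Finset.sum_congr rfl fun i _ => ?_
    rw [Int.cast_sum]
    refine Finset.sum_congr rfl fun d _ => ?_
    have h3 : (((Units.map (MonoidAlgebra.mapRingHom (C i) (Int.castRingHom B)).toMonoidHom (u i) :
          (MonoidAlgebra B (C i))ˣ) : MonoidAlgebra B (C i)) ^ p ^ l - 1) =
        MonoidAlgebra.mapRingHom (C i) (Int.castRingHom B)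
          ((u i : MonoidAlgebra ℤ (C i)) ^ p ^ l - 1) := by
      rw [map_sub, map_pow, map_one]
      rfl
    rw [h3, MonoidAlgebra.coeff_mapRingHom]
    split_ifs
    · rw [Int.cast_mul, eq_intCast]
    · rw [Int.cast_zero]
  rw [hsB] at h1
  have h4 : (p : B) ^ (2 * l) ∣ (((K : ℤ) * s : ℤ) : B) := by
    rw [Int.cast_mul, Int.cast_natCast]
    exact h1
  have h5 := dvd_int1 hsep hun _ _ h4
  have h6 : (p : ℤ) ^ (2 * l) ∣ (p : ℤ) ^ a * s := by
    have h7 : IsCoprime ((p : ℤ) ^ (2 * l)) (K0 : ℤ) := by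
      apply IsCoprime.pow_left
      rw [Nat.isCoprime_iff_coprime]
      exact (Nat.Prime.coprime_iff_not_dvd hp).2 hK0
    apply h7.dvd_of_dvd_mul_left
    have h8 : (K0 : ℤ) * ((p : ℤ) ^ a * s) = (K : ℤ) * s := by
      rw [eK]
      push_cast
      ring
    rw [h8]
    exact h5
  obtain ⟨T, hT⟩ := h6
  refine ⟨(T : ℚ), ?_, ?_⟩
  · rw [Rat.den_intCast]
    exact hp.one_lt.ne' ∘ Nat.dvd_one.1
  · rw [hsQ]
    exact_mod_cast hT

end

end Pool.Agent.H39.KL
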