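import Pool.Agent.H13.TFQ.H39.KL.RelA
import Pool.Agent.H13.TFQ.H39.KL.ValA_1
import Pool.Agent.H13.TFQ.M104
import Pool.Agent.H13.TFQ.M106
import Pool.Agent.H13.TFQ.M39

/-!
# Project KL: the relation of the logarithms over `B`, degree one

The version of `relB` with `H_0` in place of `H_{n+1}(Z_G(C))`, i.e. for the colimit of the groups `K₁(ℤ[F])`.

PROOF of `relB1`.  As `relB`, with `k = 0` and `ψ = 1` (a function of one variable; `dl ψ = 0`, invariant).  Fix `l`, take
`m = 2 l + r + 1`, `τ` from `exists_tau`.  `kq1 (K1.unit u)` is the class of the cycle `(1, U)` in `H_1(GL_1(B[G]))` (definition of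
`kq1` in `FU0/E1.lean`), so `ofKQ (kq1 ..) = QH.mk (QC.t 1 ![1, U])` (up to sign and degenerate simplices, look at the
definition), and `QC.t 1 ![1, U]` is `ch 1 (prUz B D U (Finsupp.single (fun _ => 1) 1))` for the chain of degree `0`.
`val_chain` with `k = 0`: the value is `∑ d, if IsConj c d then lamQ p m d (tauC τ c d) (U i) else 0`
(`linearCombination ℤ (psC 1 c d _) (single ..) = 1`).  `relA` with `k = 0`, `val_mono`; the rest as in `relB`
(`lamQ_log`; `orderOf d = orderOf c` for the `d` conjugate to `c`).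
-/

set_option autoImplicit false

open Matrix
open scoped LaurentPolynomial

universe u v w

namespace Pool.Agent.H39.KL

open Pool.Agent.H71.FQ Pool.Agent.H16.KN Pool.Agent.H16.FU
open Pool.Agent.H71.FU0 (H0K1 assembly10 kq1)
open Pool.Agent.H95.WH (K1 K1.unit K1.map)

section

/-- **The assembly map** on the parts `H_1(G; ℤ)`, `K₁` and `K₋₁` of the rational source in degree one. -/
noncomputable def asmOne (G : Type v) [Group G] :
    HG G 0 × H0K1 ℤ G × HnKm1 ℤ G 1 →+ LKQ (MonoidAlgebra ℤ G) 1 :=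
  ((LKQ.mk.comp (tp (MonoidAlgebra ℤ G) 0)).comp (mono1 ℤ G 0)).coprod
    (((LKQ.mk.comp (tp (MonoidAlgebra ℤ G) 0)).comp (assembly10 ℤ G)).coprod
      (asmKm1 ℤ 1 G))

variable {G : Type u} [Group G] {B : Type} [CommRing B]

private theorem o_chain (B : Type v) [CommRing B] {G : Type u} [Group G] (D : Subgroup G) {N : ℕ}
    (U : GLm N (MonoidAlgebra B D)) :
    prUz B D U (k := 0) (Finsupp.single (fun _ => 1) 1) =
      Finsupp.single (![1, mapGL (MonoidAlgebra.mapDomainRingHom B D.subtype) N U] :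
        Fin (0 + 2) → GLm N (MonoidAlgebra B G)) 1 := by
  rw [prUz, push_single, ← o_pri]
  congr 2
  funext j
  exact map_one _

open Classical in
private theorem o_val {B : Type v} [CommRing B] {p m r : ℕ} [Fact p.Prime] (D : Subgroup G)
    [Fintype D] (hD : ∀ a b : D, a * b = b * a) {c : G} {τ : (Fin (p ^ m) → G) → ZMod (p ^ m)}
    (hτ : IsTau p m r c τ) (N : ℕ) (U : GLm N (MonoidAlgebra B D)) :
    TR (p ^ m) c (phiG (k := 0) (fun _ => (1 : B)) τ)
        (QC.t N ![1, mapGL (MonoidAlgebra.mapDomainRingHom B D.subtype) N U]) =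
      ∑ d : D, if IsConj c (d : G) then lamQ p m d (tauC τ c d) U else 0 := by
  have h := val_chain (B := B) (k := 0) D hD (ψ := fun _ => (1 : B)) (fun _ _ _ => rfl) hτ N U
    (Finsupp.single (fun _ => 1) 1)
  rw [o_chain, ch_single] at h
  rw [h, pow_zero, one_mul]
  refine Finset.sum_congr rfl fun d _ => ?_
  by_cases hd : IsConj c (d : G)
  · rw [if_pos hd, if_pos hd, lamQ]
    congr 2
    funext v
    rw [Finsupp.linearCombination_single, one_smul]
    rfl
  · rw [if_neg hd, if_neg hd]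

/-- the value of the functional on the class of a unit and the logarithm -/
private theorem o_log {B : Type v} [CommRing B] {p m r : ℕ} [Fact p.Prime] (hrm : r < m)
    (D : Subgroup G) [Fintype D] (hD : ∀ a b : D, a * b = b * a)
    (hG : ∀ g : G, (∃ j : ℕ, g ^ p ^ j = 1) → g ^ p ^ r = 1) {c : G}
    (hpc : p ∣ orderOf c) {τ : (Fin (p ^ m) → G) → ZMod (p ^ m)} (hτ : IsTau p m r c τ)
    (u : (MonoidAlgebra B D)ˣ) (hu : ∃ a : MonoidAlgebra B D,
      (u : MonoidAlgebra B D) = 1 + ((p : B) ^ 2) • a) (d : D) (hd : IsConj c (d : G)) (l : ℕ) :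
    ∃ x y : B, (p : B) ^ l * lamQ p m d (tauC τ c d) (o_U u) =
      (p : B) ^ (m + r) * (((u : MonoidAlgebra B D) ^ p ^ l - 1).coeff d) +
        (p : B) ^ (2 * l + (m - r + 1)) * x + (p : B) ^ (m + (m - r + 1)) * y := by
  obtain ⟨a, ha⟩ := hu
  have h1 : ∀ g : D, (∃ j : ℕ, g ^ p ^ j = 1) → g ^ p ^ r = 1 := by
    rintro g ⟨j, hj⟩
    apply Subtype.ext
    have h2 : (g : G) ^ p ^ j = 1 := by
      have := congrArg (Subgroup.subtype D) hj
      rwa [map_pow, map_one] at this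
    have h3 := hG g ⟨j, h2⟩
    rw [Subgroup.coe_pow, h3]
    rfl
  have h2 : p ∣ orderOf d := by rw [o_orderOf hd]; exact hpc
  obtain ⟨x, y, h⟩ := lamQ_log hD hrm h1 h2 (isTau_tauC hτ d hd)
    (Matrix.diagonal fun _ : Fin 1 => a) (o_U u) (by
      rw [o_U_val, ha, ← Matrix.diagonal_one, ← Matrix.diagonal_smul, ← Matrix.diagonal_add]
      rfl) l
  refine ⟨x, y, ?_⟩
  rw [h]
  congr 3
  rw [o_U_pow]
  rw [Matrix.trace, Fin.sum_univ_one, Matrix.diag_apply]
  change ((Matrix.diagonal (fun _ : Fin 1 => (u : MonoidAlgebra B D) ^ p ^ l) - 1 :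
    Matrix (Fin 1) (Fin 1) (MonoidAlgebra B D)) 0 0).coeff d = _
  rw [Matrix.sub_apply, Matrix.diagonal_apply_eq, Matrix.one_apply_eq]

open Classical in
/-- **The relation of the logarithms in degree one.** -/
theorem relB1 [IsDomain B] [CharZero B] {p : ℕ} [Fact p.Prime] (r : ℕ)
    (hG : ∀ g : G, (∃ j : ℕ, g ^ p ^ j = 1) → g ^ p ^ r = 1) {c : G} (hc : IsOfFinOrder c)
    (hpc : p ∣ orderOf c) {ι : Type} [Fintype ι] (C : ι → Subgroup G) [∀ i, Fintype (C i)]
    (hC : ∀ i, ∀ a b : C i, a * b = b * a) (u : ∀ i, (MonoidAlgebra B (C i))ˣ)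
    (hu : ∀ i, ∃ a : MonoidAlgebra B (C i),
      (u i : MonoidAlgebra B (C i)) = 1 + ((p : B) ^ 2) • a)
    (e : ι → ℤ) (y : HG G 0) (M : ℤ) (hM : M ≠ 0)
    (h : M • LKQ.mk (tp (MonoidAlgebra B G) 0 (mono1 B G 0 y +
      ∑ i, e i • kq1 (K1.map (MonoidAlgebra.mapDomainRingHom B (C i).subtype)
        (K1.unit (u i))))) = 0) :
    ∃ K : ℕ, K ≠ 0 ∧ ∀ l : ℕ, (p : B) ^ (2 * l) ∣ (K : B) *
      ∑ i, ∑ d : C i, if IsConj c (d : G) then
        (e i : B) * (((u i : MonoidAlgebra B (C i)) ^ p ^ l - 1).coeff d) else 0 := by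
  have hp : p.Prime := Fact.out
  refine ⟨M.natAbs * p ^ (2 * r), mul_ne_zero (Int.natAbs_ne_zero.2 hM)
    (pow_ne_zero _ hp.ne_zero), fun l => ?_⟩
  obtain ⟨τ, hτ⟩ := exists_tau hp (2 * l + r + 1) r hG hc hpc
  obtain ⟨y', rfl⟩ := HG.mk_surjective y
  have hc1 : c ≠ 1 := by
    rintro rfl
    rw [orderOf_one] at hpc
    exact hp.one_lt.ne' (Nat.dvd_one.1 hpc)
  have hx := relA (B := B) (k := 0) (2 * l + r + 1) r (by omega) hG hc hpc
    (ψ := fun _ => (1 : B)) (fun _ _ _ => rfl) (fun _ => rfl) (fun v => by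
      change ∑ i : Fin 2, (-1 : ℤ) ^ (i : ℕ) • (1 : B) = 0
      rw [Fin.sum_univ_two]
      simp) hτ
    (M • (mono1 B G 0 (HG.mk y') + ∑ i, e i • kq1 (K1.map (MonoidAlgebra.mapDomainRingHom B
      (C i).subtype) (K1.unit (u i)))))
    (by rw [map_zsmul, map_zsmul]; exact h)
    (M • (ch 1 (push ℤ (scal 1 (grpHom B G)) 1 (y' : Cx ℤ G 1)) + ∑ i, e i •
      QC.t 1 ![1, mapGL (MonoidAlgebra.mapDomainRingHom B (C i).subtype) 1 (o_U (u i))]))
    (by
      rw [map_zsmul, map_zsmul, map_add, map_add, map_sum, map_sum, o_mono]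
      congr 2
      refine Finset.sum_congr rfl fun i _ => ?_
      rw [map_zsmul, map_zsmul, o_kq1])
  rw [map_zsmul, map_add, map_sum, val_mono hc1 (fun _ _ _ => rfl) hτ, zero_add, zsmul_eq_mul] at hx
  have hval : ∀ i, TR (p ^ (2 * l + r + 1)) c (phiG (k := 0) (fun _ => (1 : B)) τ) (e i •
      QC.t 1 ![1, mapGL (MonoidAlgebra.mapDomainRingHom B (C i).subtype) 1 (o_U (u i))]) =
      ∑ d : C i, (e i : B) * (if IsConj c (d : G) then
        lamQ p (2 * l + r + 1) d (tauC τ c d) (o_U (u i)) else 0) := by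
    intro i
    rw [map_zsmul, o_val (C i) (hC i) hτ, zsmul_eq_mul, Finset.mul_sum]
  rw [Finset.sum_congr rfl fun i _ => hval i] at hx
  have hch : ∀ i (d : C i), ∃ x y : B, (p : B) ^ l * ((e i : B) * (if IsConj c (d : G) then
      lamQ p (2 * l + r + 1) d (tauC τ c d) (o_U (u i)) else 0)) =
      (p : B) ^ (2 * l + r + 1 + r) * (if IsConj c (d : G) then
        (e i : B) * (((u i : MonoidAlgebra B (C i)) ^ p ^ l - 1).coeff d) else 0) +
      (p : B) ^ (2 * l + (2 * l + r + 1 - r + 1)) * x +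
      (p : B) ^ (2 * l + r + 1 + (2 * l + r + 1 - r + 1)) * y := by
    intro i d
    by_cases hd : IsConj c (d : G)
    · obtain ⟨x, y, h'⟩ := o_log (m := 2 * l + r + 1) (by omega) (C i) (hC i) hG hpc hτ (u i)
        (hu i) d hd l
      refine ⟨e i * x, e i * y, ?_⟩
      rw [if_pos hd, if_pos hd]
      linear_combination (e i : B) * h'
    · exact ⟨0, 0, by rw [if_neg hd, if_neg hd]; ring⟩
  choose x y hxy using hch
  refine o_arith r l M _ _ (∑ i, ∑ d : C i, x i d) (∑ i, ∑ d : C i, y i d) hx ?_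
  simp only [Finset.mul_sum]
  rw [← Finset.sum_add_distrib, ← Finset.sum_add_distrib]
  refine Finset.sum_congr rfl fun i _ => ?_
  rw [← Finset.sum_add_distrib, ← Finset.sum_add_distrib]
  exact Finset.sum_congr rfl fun d _ => hxy i d

end

end Pool.Agent.H39.KL
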