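import Pool.Agent.H13.TFQ.H16.KN.Chn_1
import Pool.Agent.H13.TFQ.H39.KL.Tp
import Pool.Agent.H13.TFQ.M103

/-!
# Project KL: relations in `LKQ` and the functional

PROOF of `relA`.  Write `X = ∑ KQ.cls N_i (HG.mk z_i)` (`KQ` is a quotient of a direct sum; an induction lemma
`∃ l : List (Σ N, cyc (GLm N A) k), X = ∑ ..` is convenient, or prove the statement for `X` by `QuotientAddGroup` and
`DirectSum` induction in the following additive form).
(a) There is `x₀ : QC (B[G]) (k + 1)` with `ofKQ X = QH.mk x₀` and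
`ofKQ (KQ.map (gz B id) (tp _ k X)) = QH.mk x₁`, where `x₀ = ∑ ch N_i z_i` and
`x₁ = ∑ ch N_i (pri (uT B G N_i) (k + 1) (push ℤ (mapGL (inG B G) N_i) (k + 1) z_i))`: `tp_cls`, `KQ.map_cls`, `HG.map_cr`,
`mapGL (gz ..) (cS N x) = mapGL (inG B G) N x`, `mapGL (gz ..) (tS N) = uT B G N` (`gz_single`), `HG.cr_mk`, `ofKQ_cls`.  By `val_T`
`TR (phiT ψ τ) x₁ = (-1) ^ (k + 1) * TR (phiG ψ τ) x₀`.
(b) `LKQ.mk_eq_zero_iff`: `tp X = KQ.map pos a + KQ.map neg b`; `map_pos_mem`, `map_neg_mem` (`KN/Chn.lean`) give `w₀ ∈ QC0` with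
`QH.mk x₁ = QH.mk w₀`, so `x₁ - w₀ = qbd w` (`QH.mk_eq_zero`); `half_zero`, `bd_dvd`: `p ^ (m + (m - r + 1)) ∣ TR (phiT ψ τ) x₁`.
(c) `QH.mk x = QH.mk x₀` gives `x - x₀ = qbd w'`; `bd_dvdG`.
-/

set_option autoImplicit false

open Matrix
open scoped LaurentPolynomial

universe u v w

namespace Pool.Agent.H39.KL

open Pool.Agent.H71.FQ Pool.Agent.H16.KN Pool.Agent.H16.FU

section

variable {G : Type u} [Group G] {B : Type} [CommRing B] {k : ℕ}

private theorem inG_single' (g : G) (r : B) :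
    inG B G (MonoidAlgebra.single g r) = MonoidAlgebra.single (g, 1) r := by
  change MonoidAlgebra.mapDomain (MonoidHom.inl G (Multiplicative ℤ)) (MonoidAlgebra.single g r) = _
  rw [MonoidAlgebra.mapDomain_single]
  rfl

private theorem gz_C (x : MonoidAlgebra B G) :
    gz B (MonoidHom.id G) (LaurentPolynomial.C x) = inG B G x := by
  have h : (gz B (MonoidHom.id G)).comp
      (LaurentPolynomial.C : MonoidAlgebra B G →+* (MonoidAlgebra B G)[T;T⁻¹]) = inG B G := by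
    refine MonoidAlgebra.ringHom_ext (fun r => ?_) fun g => ?_
    · rw [RingHom.comp_apply, inG_single']
      exact gz_single B (MonoidHom.id G) 0 1 r
    · rw [RingHom.comp_apply, inG_single']
      exact gz_single B (MonoidHom.id G) 0 g 1
  exact DFunLike.congr_fun h x

private theorem map_cS (N : ℕ) (x : GLm N (MonoidAlgebra B G)) :
    mapGL (gz B (MonoidHom.id G)) N (cS (MonoidAlgebra B G) N x) = mapGL (inG B G) N x := by
  apply Units.ext
  refine Matrix.ext fun i j => ?_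
  exact gz_C (x.val i j)

private theorem map_tS (N : ℕ) :
    mapGL (gz B (MonoidHom.id G)) N (tS (MonoidAlgebra B G) N) = uT B G N := by
  apply Units.ext
  refine Matrix.ext fun i j => ?_
  show gz B (MonoidHom.id G) (diagonal (fun _ => (LaurentPolynomial.T 1 :
    (MonoidAlgebra B G)[T;T⁻¹])) i j) = diagonal (fun _ =>
      (MonoidAlgebra.single ((1, Multiplicative.ofAdd 1) : G × Multiplicative ℤ) (1 : B))) i j
  by_cases hij : i = j
  · rw [hij, diagonal_apply_eq, diagonal_apply_eq]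
    exact gz_single B (MonoidHom.id G) 1 1 1
  · rw [diagonal_apply_ne _ hij, diagonal_apply_ne _ hij, map_zero]

private theorem map_tp_cls (N : ℕ) (z : cyc (GLm N (MonoidAlgebra B G)) k) :
    ofKQ (KQ.map (gz B (MonoidHom.id G)) (tp (MonoidAlgebra B G) k
      (KQ.cls (MonoidAlgebra B G) k N (HG.mk z)))) =
      QH.mk (ch N (pri (uT B G N) (k + 1) (push ℤ (mapGL (inG B G) N) (k + 1)
        (z : Cx ℤ (GLm N (MonoidAlgebra B G)) (k + 1))))) := by
  have e1 : ((mapGL (gz B (MonoidHom.id G)) N).comp (cS (MonoidAlgebra B G) N)) =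
      mapGL (inG B G) N := MonoidHom.ext fun x => map_cS N x
  have h : ∀ γ, ((mapGL (gz B (MonoidHom.id G)) N).comp (cS (MonoidAlgebra B G) N)) γ *
      mapGL (gz B (MonoidHom.id G)) N (tS (MonoidAlgebra B G) N) =
      mapGL (gz B (MonoidHom.id G)) N (tS (MonoidAlgebra B G) N) *
        ((mapGL (gz B (MonoidHom.id G)) N).comp (cS (MonoidAlgebra B G) N)) γ := by
    intro γ
    rw [MonoidHom.comp_apply, ← map_mul, ← map_mul, tS_comm]
  rw [tp_cls, KQ.map_cls, HG.map_cr _ _ _ _ h, HG.cr_mk, ofKQ_cls]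
  show QH.mk (ch N (pri (mapGL (gz B (MonoidHom.id G)) N (tS (MonoidAlgebra B G) N)) (k + 1)
    (push ℤ ((mapGL (gz B (MonoidHom.id G)) N).comp (cS (MonoidAlgebra B G) N)) (k + 1)
      (z : Cx ℤ (GLm N (MonoidAlgebra B G)) (k + 1))))) = _
  rw [e1, map_tS]

/-- the chains `x₀`, `x₁` -/
private def Pr {p : ℕ} [Fact p.Prime] (m : ℕ) (c : G)
    (ψ : (Fin (k + 1) → Fin (p ^ m) → G) → B) (τ : (Fin (p ^ m) → G) → ZMod (p ^ m))
    (X : KQ (MonoidAlgebra B G) k) : Prop :=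
  ∃ (x₀ : QC (MonoidAlgebra B G) (k + 1))
    (x₁ : QC (MonoidAlgebra B (G × Multiplicative ℤ)) (k + 2)),
    ofKQ X = QH.mk x₀ ∧
    ofKQ (KQ.map (gz B (MonoidHom.id G)) (tp (MonoidAlgebra B G) k X)) = QH.mk x₁ ∧
    TR (p ^ m) ((c, 1) : G × Multiplicative ℤ) (phiT ψ τ) x₁ =
      (-1) ^ (k + 1) * TR (p ^ m) c (phiG ψ τ) x₀

private theorem sumH_ind {A : Type u} [Ring A] {n : ℕ} (P : KQ A n → Prop) (h0 : P 0)
    (h1 : ∀ N (z : cyc (GLm N A) n), P (KQ.cls A n N (HG.mk z)))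
    (h2 : ∀ x y, P x → P y → P (x + y)) (x : KQ A n) : P x := by
  obtain ⟨y, rfl⟩ := QuotientAddGroup.mk'_surjective (blkRel A n) x
  revert y
  suffices h : ∀ y : SumH A n, P (QuotientAddGroup.mk' (blkRel A n) y) from h
  intro y
  induction y using DirectSum.induction_on with
  | zero => exact h0
  | of N x =>
    obtain ⟨z, rfl⟩ := HG.mk_surjective x
    exact h1 N z
  | add a b iha ihb => exact h2 _ _ iha ihb

private theorem exists_pr {p : ℕ} [Fact p.Prime] {m r : ℕ} {c : G}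
    {ψ : (Fin (k + 1) → Fin (p ^ m) → G) → B} (h1 : CIq c (p ^ m) ψ)
    {τ : (Fin (p ^ m) → G) → ZMod (p ^ m)} (hτ : IsTau p m r c τ)
    (X : KQ (MonoidAlgebra B G) k) : Pr m c ψ τ X := by
  refine sumH_ind (Pr m c ψ τ) ?_ ?_ ?_ X
  · refine ⟨0, 0, ?_, ?_, ?_⟩
    · rw [map_zero, map_zero]
    · rw [map_zero, map_zero, map_zero, map_zero]
    · rw [map_zero, map_zero, mul_zero]
  · intro N z
    exact ⟨_, _, ofKQ_cls N z, map_tp_cls N z, val_T h1 hτ N _⟩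
  · rintro x y ⟨a, b, e1, e2, e3⟩ ⟨a', b', e1', e2', e3'⟩
    refine ⟨a + a', b + b', ?_, ?_, ?_⟩
    · rw [map_add, map_add, e1, e1']
    · rw [map_add, map_add, map_add, map_add, e2, e2']
    · rw [map_add, map_add, e3, e3', mul_add]

/-- **Relations in `LKQ` and the functional.** -/
theorem relA {p : ℕ} [Fact p.Prime] (m r : ℕ) (hrm : r ≤ m)
    (hG : ∀ g : G, (∃ j : ℕ, g ^ p ^ j = 1) → g ^ p ^ r = 1) {c : G} (hc : IsOfFinOrder c)
    (hpc : p ∣ orderOf c) {ψ : (Fin (k + 1) → Fin (p ^ m) → G) → B} (h1 : CIq c (p ^ m) ψ)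
    (h2 : RIq c (p ^ m) ψ) (h3 : ∀ v, dl ψ v = 0) {τ : (Fin (p ^ m) → G) → ZMod (p ^ m)}
    (hτ : IsTau p m r c τ) (X : KQ (MonoidAlgebra B G) k)
    (hX : LKQ.mk (tp (MonoidAlgebra B G) k X) = 0) (x : QC (MonoidAlgebra B G) (k + 1))
    (hx : ofKQ X = QH.mk x) :
    (p : B) ^ (m + (m - r + 1)) ∣ TR (p ^ m) c (phiG ψ τ) x := by
  obtain ⟨x₀, x₁, e1, e2, e3⟩ := exists_pr (B := B) (k := k) h1 hτ X
  obtain ⟨a, b, hab⟩ := LKQ.mk_eq_zero_iff.1 hX
  obtain ⟨a', ha', ea⟩ := map_pos_mem a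
  obtain ⟨b', hb', eb⟩ := map_neg_mem b
  have e4 : QH.mk (x₁ - (a' + b')) = 0 := by
    rw [map_sub, map_add, ← e2, ← hab, map_add, map_add, ea, eb, sub_self]
  obtain ⟨w, hw⟩ := QH.mk_eq_zero.1 e4
  have e5 : QH.mk (x - x₀) = 0 := by
    rw [map_sub, ← hx, e1, sub_self]
  obtain ⟨w', hw'⟩ := QH.mk_eq_zero.1 e5
  have d1 : (p : B) ^ (m + (m - r + 1)) ∣
      TR (p ^ m) ((c, 1) : G × Multiplicative ℤ) (phiT ψ τ) x₁ := by
    have hs : x₁ = a' + b' + qbd w := by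
      rw [hw]
      abel
    rw [hs, map_add, map_add, half_zero h1 hτ ha', half_zero h1 hτ hb', add_zero, zero_add]
    exact bd_dvd m r hrm hG hc hpc h1 h2 h3 hτ w
  have d2 : (p : B) ^ (m + (m - r + 1)) ∣ TR (p ^ m) c (phiG ψ τ) x₀ := by
    have hs : TR (p ^ m) c (phiG ψ τ) x₀ = (-1) ^ (k + 1) *
        TR (p ^ m) ((c, 1) : G × Multiplicative ℤ) (phiT ψ τ) x₁ := by
      rw [e3, ← mul_assoc, ← mul_pow, neg_one_mul, neg_neg, one_pow, one_mul]
    rw [hs]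
    exact Dvd.dvd.mul_left d1 _
  have hs : x = x₀ + qbd w' := by
    rw [hw']
    abel
  rw [hs, map_add]
  exact dvd_add d2 (bd_dvdG m r hrm hG hc hpc h1 h2 h3 hτ w')

end

end Pool.Agent.H39.KL
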